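import Pool.Agent.H523.ZG.Stm

set_option autoImplicit false
set_option linter.unusedSectionVars false

/-! # The mean of the error terms: summation over the sets of primes -/

namespace Pool.Agent.H339.ZG

open Polynomial Finset
open Pool.Agent.H341R2.Sharp (Mon mem_Mon)
open Pool.Agent.H523.FF (Ir mem_Ir PL mem_PL card_PL two_le_card IrLE mem_IrLE)
open Pool.Agent.H523.CM Pool.Agent.H523.ZG

open scoped Classical

variable {F : Type} [Field F] [Fintype F]

/-- the mean of the error terms of one modulus -/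
theorem meanDM (hD : S_D) {n d r : ℕ} (hrd : r < d) (hdn : d < n) {t : Finset F[X]}
    (ht : t ∈ SF F r) :
    ∑ Q ∈ Ir F d, |DM n (∏ P ∈ t, P) Q| ≤
      3 * n * (Fintype.card F : ℝ) ^ n *
        √((Fintype.card F : ℝ) ^ (d - ∑ P ∈ t, P.natDegree)) := by
  obtain ⟨h1, h2⟩ := mem_SF.mp ht
  have hq := two_le_card (F := F)
  set q : ℝ := (Fintype.card F : ℝ) with hqd
  have hq0 : 0 < q := by linarith
  have hMd : (∏ P ∈ t, P).natDegree = ∑ P ∈ t, P.natDegree := natDegree_pr h1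
  have hMm : (∏ P ∈ t, P).Monic := monic_pr h1
  obtain ⟨M, hM⟩ : ∃ M : F[X], M = ∏ P ∈ t, P := ⟨_, rfl⟩
  obtain ⟨m, hm⟩ : ∃ m : ℕ, m = ∑ P ∈ t, P.natDegree := ⟨_, rfl⟩
  rw [← hM] at hMd hMm ⊢
  rw [← hm] at hMd h2 ⊢
  have h3 := hD F n d M hMm (by omega) hdn
  rw [hMd] at h3
  have hsub : Ir F d ⊆ (Mon F d).filter (fun Q => IsCoprime Q M) := by
    intro Q hQ
    have hQ' := mem_Ir.mp hQ
    rw [mem_filter, mem_Mon]
    refine ⟨⟨hQ'.1, hQ'.2.2⟩, ?_⟩
    rw [hQ'.2.1.coprime_iff_not_dvd]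
    intro hdvd
    have := natDegree_le_of_dvd hdvd hMm.ne_zero
    rw [hMd, hQ'.2.2] at this
    omega
  have h4 : ∑ Q ∈ Ir F d, DM n M Q ^ 2 ≤
      9 * (n:ℝ) ^ 2 * (q ^ (d - m) * q ^ n * q ^ (n - d)) :=
    (sum_le_sum_of_subset_of_nonneg hsub (fun Q _ _ => sq_nonneg _)).trans h3
  have h5 : ((Ir F d).card : ℝ) ≤ q ^ d := by
    rw [hqd, ← card_Mon (F := F) d]
    exact_mod_cast card_le_card (hsub.trans (filter_subset _ _))
  have h6 : (∑ Q ∈ Ir F d, |DM n M Q|) ^ 2 ≤ (3 * n * q ^ n * √(q ^ (d - m))) ^ 2 := by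
    calc (∑ Q ∈ Ir F d, |DM n M Q|) ^ 2 ≤ (Ir F d).card * ∑ Q ∈ Ir F d, |DM n M Q| ^ 2 :=
          sq_sum_le_card_mul_sum_sq
      _ = (Ir F d).card * ∑ Q ∈ Ir F d, DM n M Q ^ 2 := by simp_rw [sq_abs]
      _ ≤ q ^ d * (9 * (n:ℝ) ^ 2 * (q ^ (d - m) * q ^ n * q ^ (n - d))) :=
          mul_le_mul h5 h4 (sum_nonneg fun _ _ => sq_nonneg _) (by positivity)
      _ = (3 * n * q ^ n * √(q ^ (d - m))) ^ 2 := by
          have e1 : q ^ d * q ^ (n - d) = q ^ n := by
            rw [← pow_add]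
            congr 1
            omega
          have e2 : √(q ^ (d - m)) ^ 2 = q ^ (d - m) := Real.sq_sqrt (by positivity)
          rw [mul_pow, e2]
          linear_combination (9 * (n:ℝ) ^ 2 * q ^ (d - m) * q ^ n) * e1
  exact (pow_le_pow_iff_left₀ (sum_nonneg fun _ _ => abs_nonneg _) (by positivity)
    two_ne_zero).mp h6

theorem sub_IrLE {r : ℕ} {s : Finset F[X]} (hs : s ∈ SF F r) : s ⊆ IrLE F r := by
  unfold SF at hs
  exact mem_powerset.mp (mem_filter.mp hs).1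

theorem sub_SF {r : ℕ} {s t : Finset F[X]} (hs : s ∈ SF F r) (ht : t ⊆ s) : t ∈ SF F r := by
  rw [mem_SF] at hs ⊢
  exact ⟨fun P hP => hs.1 P (ht hP), (sum_le_sum_of_subset ht).trans hs.2⟩

/-- the exchange of the sums -/
theorem sum_swap {r : ℕ} (g : Finset F[X] → ℝ) (hg : ∀ t ∈ SF F r, 0 ≤ g t) :
    ∑ s ∈ SF F r, ∑ t ∈ s.powerset, (∏ P ∈ s \ t, gP P) * g t ≤
      (∏ P ∈ IrLE F r, (1 + gP P)) * ∑ t ∈ SF F r, g t := by
  rw [prod_one_add, sum_mul_sum, ← sum_product', sum_sigma']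
  have hinj : Set.InjOn (fun x : (_ : Finset F[X]) × Finset F[X] => (x.1 \ x.2, x.2))
      ((SF F r).sigma fun s => s.powerset : Finset ((_ : Finset F[X]) × Finset F[X])) := by
    rintro ⟨s, t⟩ hx ⟨s', t'⟩ hy h
    rw [mem_coe, mem_sigma, mem_powerset] at hx hy
    simp only [Prod.mk.injEq] at h hx hy
    obtain ⟨h1, rfl⟩ := h
    have e1 : s = s' := by
      rw [← sdiff_union_of_subset hx.2, ← sdiff_union_of_subset hy.2, h1]
    rw [e1]
  rw [← sum_image (f := fun y : Finset F[X] × Finset F[X] => (∏ P ∈ y.1, gP P) * g y.2) hinj]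
  refine sum_le_sum_of_subset_of_nonneg ?_ ?_
  · intro y hy
    obtain ⟨⟨s, t⟩, hx, rfl⟩ := mem_image.mp hy
    rw [mem_sigma, mem_powerset] at hx
    rw [mem_product, mem_powerset]
    exact ⟨sdiff_subset.trans (sub_IrLE hx.1), sub_SF hx.1 hx.2⟩
  · rintro ⟨u, t⟩ hy _
    rw [mem_product, mem_powerset] at hy
    exact mul_nonneg (prod_nonneg fun P hP => (gP_pos (mem_IrLE.mp (hy.1 hP)).2.1).le)
      (hg t hy.2)

/-- the sum over the moduli -/
theorem sum_sqrt {d r : ℕ} (hrd : r < d) :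
    ∑ t ∈ SF F r, √((Fintype.card F : ℝ) ^ (d - ∑ P ∈ t, P.natDegree)) ≤
      ((r:ℝ) + 1) * √((Fintype.card F : ℝ) ^ d * (Fintype.card F : ℝ) ^ r) := by
  have hq := two_le_card (F := F)
  set q : ℝ := (Fintype.card F : ℝ) with hqd
  have hq0 : 0 < q := by linarith
  have hq1 : 1 ≤ q := by linarith
  rw [← sum_fiberwise_of_maps_to (s := SF F r) (t := range (r + 1))
    (g := fun t => ∑ P ∈ t, P.natDegree)
    (fun t ht => by rw [mem_range]; have := (mem_SF.mp ht).2; omega)]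
  calc ∑ m ∈ range (r + 1), ∑ t ∈ (SF F r).filter (fun t => ∑ P ∈ t, P.natDegree = m),
        √(q ^ (d - ∑ P ∈ t, P.natDegree))
      ≤ ∑ m ∈ range (r + 1), √(q ^ d * q ^ r) := by
        refine sum_le_sum (fun m hm => ?_)
        have hmr : m ≤ r := by
          rw [mem_range] at hm
          omega
        have e1 : ∑ t ∈ (SF F r).filter (fun t => ∑ P ∈ t, P.natDegree = m),
            √(q ^ (d - ∑ P ∈ t, P.natDegree)) =
            ((SF F r).filter (fun t => ∑ P ∈ t, P.natDegree = m)).card * √(q ^ (d - m)) := by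
          rw [← nsmul_eq_mul, ← sum_const]
          exact sum_congr rfl (fun t ht => by rw [(mem_filter.mp ht).2])
        rw [e1]
        have h1 : (((SF F r).filter (fun t => ∑ P ∈ t, P.natDegree = m)).card : ℝ) ≤ q ^ m := by
          refine le_trans ?_ (card_SDj (F := F) r m)
          have h2 : (SF F r).filter (fun t => ∑ P ∈ t, P.natDegree = m) ⊆ SDj F r m := by
            intro t ht
            rw [mem_SDj]
            exact ⟨sub_IrLE (mem_filter.mp ht).1, (mem_filter.mp ht).2⟩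
          exact_mod_cast card_le_card h2
        refine (mul_le_mul_of_nonneg_right h1 (Real.sqrt_nonneg _)).trans ?_
        apply Real.le_sqrt_of_sq_le
        rw [mul_pow, Real.sq_sqrt (by positivity)]
        have e2 : (q ^ m) ^ 2 * q ^ (d - m) = q ^ d * q ^ m := by
          have e3 : q ^ d = q ^ m * q ^ (d - m) := by
            rw [← pow_add]
            congr 1
            omega
          rw [e3]
          ring
        rw [e2]
        exact mul_le_mul_of_nonneg_left (pow_le_pow_right₀ hq1 hmr) (by positivity)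
    _ = ((r:ℝ) + 1) * √(q ^ d * q ^ r) := by
        rw [sum_const, card_range, nsmul_eq_mul]
        push_cast
        rfl

theorem prod_le {r : ℕ} (hr : 1 ≤ r) {t : Finset F[X]} (ht : t ∈ SF F r) :
    ∏ P ∈ t, (1 + gP P) ≤ Real.exp 3 * r := by
  rw [prod_one_add]
  exact sum_gP_le (by omega) (powerset_mono.mpr (sub_IrLE ht))

theorem main : S_D → S_E1 → S_E := by
  intro hD hE1 F _ _ n d r T hr hrd hdn
  have hq := two_le_card (F := F)
  set q : ℝ := (Fintype.card F : ℝ) with hqd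
  have hq0 : 0 < q := by linarith
  have hpr : ∀ t ∈ SF F r, 0 ≤ ∏ P ∈ t, (1 + gP P) := fun t ht =>
    prod_nonneg fun P hP => by
      have := gP_pos ((mem_SF.mp ht).1 P hP).2
      linarith
  have h1 : ∀ Q ∈ Ir F d, |∑ s ∈ SF F r \ SF F T, ET n s Q| ≤
      ∑ s ∈ SF F r, ∑ t ∈ s.powerset, (∏ P ∈ s \ t, gP P) *
        ((∏ P ∈ t, (1 + gP P)) * |DM n (∏ P ∈ t, P) Q|) := by
    intro Q hQ
    refine (abs_sum_le_sum_abs _ _).trans ?_
    refine (sum_le_sum_of_subset_of_nonneg sdiff_subset (fun _ _ _ => abs_nonneg _)).trans ?_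
    refine sum_le_sum (fun s hs => ?_)
    have hs' := (mem_SF.mp hs).1
    rw [hE1 F n s Q hs']
    refine (abs_sum_le_sum_abs _ _).trans (sum_le_sum (fun t ht => ?_))
    have hts := mem_powerset.mp ht
    rw [abs_mul, abs_mul, abs_prod, abs_prod]
    have e1 : ∏ P ∈ s \ t, |gP P| = ∏ P ∈ s \ t, gP P :=
      prod_congr rfl (fun P hP => abs_of_pos (gP_pos (hs' P (mem_sdiff.mp hP).1).2))
    have e2 : ∏ P ∈ t, |-(1 + gP P)| = ∏ P ∈ t, (1 + gP P) :=
      prod_congr rfl (fun P hP => by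
        have := gP_pos (hs' P (hts hP)).2
        rw [abs_neg, abs_of_pos (by linarith)])
    rw [e1, e2, mul_assoc]
  calc ∑ Q ∈ Ir F d, |∑ s ∈ SF F r \ SF F T, ET n s Q|
      ≤ ∑ Q ∈ Ir F d, ∑ s ∈ SF F r, ∑ t ∈ s.powerset, (∏ P ∈ s \ t, gP P) *
        ((∏ P ∈ t, (1 + gP P)) * |DM n (∏ P ∈ t, P) Q|) := sum_le_sum h1
    _ = ∑ s ∈ SF F r, ∑ t ∈ s.powerset, (∏ P ∈ s \ t, gP P) *
        ((∏ P ∈ t, (1 + gP P)) * ∑ Q ∈ Ir F d, |DM n (∏ P ∈ t, P) Q|) := by
        rw [sum_comm]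
        refine sum_congr rfl (fun s _ => ?_)
        rw [sum_comm]
        refine sum_congr rfl (fun t _ => ?_)
        rw [mul_sum, mul_sum]
    _ ≤ (∏ P ∈ IrLE F r, (1 + gP P)) * ∑ t ∈ SF F r,
        (∏ P ∈ t, (1 + gP P)) * ∑ Q ∈ Ir F d, |DM n (∏ P ∈ t, P) Q| :=
        sum_swap _ (fun t ht => mul_nonneg (hpr t ht) (sum_nonneg fun _ _ => abs_nonneg _))
    _ ≤ (Real.exp 3 * r) * ∑ t ∈ SF F r, (Real.exp 3 * r) *
        (3 * n * q ^ n * √(q ^ (d - ∑ P ∈ t, P.natDegree))) := by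
        refine mul_le_mul (mertens (by omega)) (sum_le_sum fun t ht => ?_)
          (sum_nonneg fun t ht => mul_nonneg (hpr t ht) (sum_nonneg fun _ _ => abs_nonneg _))
          (by positivity)
        exact mul_le_mul (prod_le hr ht) (meanDM hD hrd hdn ht)
          (sum_nonneg fun _ _ => abs_nonneg _) (by positivity)
    _ = (Real.exp 3 * r) ^ 2 * (3 * n * q ^ n) *
        ∑ t ∈ SF F r, √(q ^ (d - ∑ P ∈ t, P.natDegree)) := by
        rw [← mul_sum, ← mul_sum]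
        ring
    _ ≤ (Real.exp 3 * r) ^ 2 * (3 * n * q ^ n) * (((r:ℝ) + 1) * √(q ^ d * q ^ r)) :=
        mul_le_mul_of_nonneg_left (sum_sqrt hrd) (by positivity)
    _ = 3 * Real.exp 6 * ((r:ℝ) ^ 2 * n * (r + 1)) * (q ^ n * √(q ^ d * q ^ r)) := by
        have e1 : Real.exp 6 = Real.exp 3 ^ 2 := by
          rw [← Real.exp_nat_mul]
          norm_num
        rw [e1]
        ring
    _ ≤ 3 * Real.exp 6 * (n:ℝ) ^ 4 * (q ^ n * √(q ^ d * q ^ r)) := by
        have hrn : (r:ℝ) ≤ n := by exact_mod_cast (by omega : r ≤ n)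
        have hrn1 : (r:ℝ) + 1 ≤ n := by exact_mod_cast (by omega : r + 1 ≤ n)
        have h2 : (r:ℝ) ^ 2 * n * (r + 1) ≤ (n:ℝ) ^ 4 := by
          calc (r:ℝ) ^ 2 * n * (r + 1) ≤ (n:ℝ) ^ 2 * n * n := by gcongr
            _ = (n:ℝ) ^ 4 := by ring
        gcongr

end Pool.Agent.H339.ZG
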